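import Pool.Agent.Y649.DG.Stm

set_option autoImplicit false

/-! # DG-LOWER (helper649): the lower bound for formulas with determinant gates (helper427, copy-edit
of the network version of helper638) -/

namespace Pool.Agent.Y427.DG

open Finset Pool.Agent.TH697.Form Pool.Agent.TH697.Row Pool.Agent.Y649.DG
open Pool.Agent.Y638.RF (Asks gen_err')

section

variable {ι : Type} {D : ι → Type} [DecidableEq ι] {T : Type} [Fintype T] {Ω : Type} [Fintype Ω]
  {w q : ℕ}

open Classical in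
/-- The lower bound for random formulas. -/
theorem fml_lower (hsub : S_SUB) (μ : Ω → ℝ) (hμ : IsProb μ) (F : Ω → Fml ι D w q)
    (P : (∀ i, D i) → Prop) (f : (∀ i, D i) → Bool)
    (hF : ApproximatesOn μ (fun ω => (F ω).accepts) P f) (s : ℕ) (hs : ∀ ω, (F ω).size ≤ s)
    (hq : 1 ≤ q) (hw : 1 ≤ w) (K M : ℕ) (hM : 4 * K * (5 * s + 1) + 2 + s ≤ M) (δ : ℝ)
    (I : Finset ι) (h : ∀ i ∈ I, Asks T K δ P f i) (θ : ℝ) (hθ : 0 < θ)
    (hsmall : 1 + 3 * (40 * θ) ^ 2 * (1 + 5 * Real.logb 2 M + (w - 1) * Real.logb 2 q) <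
      (17 / 300 - δ) * Fintype.card T) :
    (I.card : ℝ) * θ ≤ w * s := by
  have h6 : (0 : ℝ) < Real.log 2 := Real.log_pos (by norm_num)
  have hlq : 0 ≤ Real.log (q : ℝ) := Real.log_nonneg (by exact_mod_cast hq)
  have hlM : 0 ≤ Real.log (M : ℝ) := Real.log_nonneg (by exact_mod_cast (by omega : 1 ≤ M))
  have hw' : ((w - 1 : ℕ) : ℝ) = (w : ℝ) - 1 := by
    rw [Nat.cast_sub hw, Nat.cast_one]
  have hw1 : (0 : ℝ) ≤ (w : ℝ) - 1 := by rw [← hw']; positivity
  obtain ⟨B, hB⟩ : ∃ B, B = 2 * M ^ 5 * q ^ (w - 1) := ⟨_, rfl⟩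
  have hBpos : 0 < B := by
    rw [hB]
    have : 0 < M := by omega
    positivity
  obtain ⟨L, hL⟩ : ∃ L : ℝ, L = 1 + 5 * Real.logb 2 M + (w - 1) * Real.logb 2 q := ⟨_, rfl⟩
  have hL0 : 0 ≤ L := by
    rw [hL, Real.logb, Real.logb]
    positivity
  have hLB : L * Real.log 2 = Real.log (B : ℝ) := by
    have hM' : (0 : ℝ) < M := by exact_mod_cast (by omega : 0 < M)
    have hq' : (0 : ℝ) < q := by exact_mod_cast hq
    rw [hL, hB]
    push_cast
    rw [Real.log_mul (by positivity) (by positivity), Real.log_mul (by positivity) (by positivity),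
      Real.log_pow, Real.log_pow, hw', Real.logb, Real.logb]
    field_simp
    push_cast
    ring
  rw [← hL] at hsmall
  -- every item is read often
  have h1 : ∀ i ∈ I, θ ≤ ∑ ω, μ ω * ((F ω).reads i : ℝ) := by
    intro i hi
    by_contra hlt
    push Not at hlt
    obtain ⟨A, r, Q, R, hA, hQA, hQ, hP, hf⟩ := h i hi
    obtain ⟨y, hy⟩ : ∃ y : {d // d ∈ A} → D i, y = fun v => v.1 := ⟨_, rfl⟩
    have hM' : 4 * Fintype.card {d // d ∈ A} * (5 * s + 1) + 2 + s ≤ M := by
      rw [Fintype.card_coe]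
      have : 4 * A.card * (5 * s + 1) ≤ 4 * K * (5 * s + 1) :=
        Nat.mul_le_mul_right _ (Nat.mul_le_mul_left _ hA)
      omega
    choose S hS1 hS2 using fun ω => hsub ι D w q {d // d ∈ A} i y s M B hq hM' hB (F ω) (hs ω)
    obtain ⟨bad, hbad⟩ : ∃ bad : Finset Ω, bad = univ.filter (fun ω => 40 * θ < ((F ω).reads i : ℝ)) :=
      ⟨_, rfl⟩
    have hmark : ∑ ω ∈ bad, μ ω ≤ 1 / 40 := by
      have h2 : ∑ ω ∈ bad, μ ω * (40 * θ) ≤ ∑ ω, μ ω * ((F ω).reads i : ℝ) := by
        calc ∑ ω ∈ bad, μ ω * (40 * θ) ≤ ∑ ω ∈ bad, μ ω * ((F ω).reads i : ℝ) := by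
              apply sum_le_sum
              intro ω hω
              rw [hbad, mem_filter] at hω
              exact mul_le_mul_of_nonneg_left hω.2.le (hμ.nonneg ω)
          _ ≤ _ := sum_le_sum_of_subset_of_nonneg (subset_univ _) (fun ω _ _ =>
              mul_nonneg (hμ.nonneg ω) (Nat.cast_nonneg _))
      rw [← sum_mul] at h2
      have h3 : (∑ ω ∈ bad, μ ω) * (40 * θ) < θ := lt_of_le_of_lt h2 hlt
      nlinarith
    obtain ⟨G, hG⟩ : ∃ G : Ω → (∀ i, D i) → Bool, ∀ ω x, G ω x =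
        if ω ∈ bad then false else (F ω).accepts x := ⟨_, fun _ _ => rfl⟩
    have hGerr : ∀ x, P x → ∑ ω ∈ univ.filter (fun ω => G ω x ≠ f x), μ ω ≤ 1 / 3 + 1 / 40 := by
      intro x hx
      have h2 : univ.filter (fun ω => G ω x ≠ f x) ⊆
          univ.filter (fun ω => (F ω).accepts x ≠ f x) ∪ bad := by
        intro ω hω
        rw [mem_filter] at hω
        rw [mem_union, mem_filter]
        by_cases hb : ω ∈ bad
        · exact Or.inr hb
        · left
          have h3 := hω.2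
          rw [hG, if_neg hb] at h3
          exact ⟨mem_univ _, h3⟩
      calc ∑ ω ∈ univ.filter (fun ω => G ω x ≠ f x), μ ω
          ≤ ∑ ω ∈ univ.filter (fun ω => (F ω).accepts x ≠ f x) ∪ bad, μ ω :=
            sum_le_sum_of_subset_of_nonneg h2 (fun ω _ _ => hμ.nonneg ω)
        _ ≤ ∑ ω ∈ univ.filter (fun ω => (F ω).accepts x ≠ f x), μ ω + ∑ ω ∈ bad, μ ω := by
            rw [← sum_union_inter]
            have : 0 ≤ ∑ ω ∈ univ.filter (fun ω => (F ω).accepts x ≠ f x) ∩ bad, μ ω :=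
              sum_nonneg fun ω _ => hμ.nonneg ω
            linarith
        _ ≤ _ := add_le_add (hF x hx) hmark
    have h2 := gen_err' μ hμ G P f (1 / 3 + 1 / 40) hGerr i y
      (fun ω => if ω ∈ bad then {fun _ => false} else S ω) (fun ω z => by
        by_cases hb : ω ∈ bad
        · rw [if_pos hb, mem_singleton]
          funext v
          rw [hG, if_pos hb]
        · rw [if_neg hb]
          have : (fun v => G ω (Function.update z i (y v))) =
              fun v => (F ω).accepts (Function.update z i (y v)) := by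
            funext v
            rw [hG, if_neg hb]
          rw [this]
          exact hS2 ω z) r
      (fun t z => ⟨Q t z, hQA t z⟩) (fun t z z' hz => Subtype.ext (hQ t z z' hz)) R
      (fun t z => by rw [hy]; exact hP t z) δ (by rw [hy]; exact hf)
    have h3 : ∀ ω, μ ω * Real.log ((if ω ∈ bad then {fun _ => false} else S ω : Finset _).card : ℝ) ≤
        μ ω * ((1 + 3 * (40 * θ) ^ 2 * L) * Real.log 2) := by
      intro ω
      apply mul_le_mul_of_nonneg_left _ (hμ.nonneg ω)
      by_cases hb : ω ∈ bad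
      · rw [if_pos hb, card_singleton, Nat.cast_one, Real.log_one]
        positivity
      · rw [if_neg hb]
        have hr : ((F ω).reads i : ℝ) ≤ 40 * θ := by
          rw [hbad, mem_filter] at hb
          push Not at hb
          exact hb (mem_univ _)
        have hne : 1 ≤ (S ω).card := card_pos.2 ⟨_, hS2 ω (R (fun _ => false))⟩
        have h4 : ((S ω).card : ℝ) ≤ 2 * (B : ℝ) ^ (3 * (F ω).reads i ^ 2) := by
          exact_mod_cast hS1 ω
        have h5 := Real.log_le_log (by exact_mod_cast hne) h4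
        have hB' : (0 : ℝ) < B := by exact_mod_cast hBpos
        rw [Real.log_mul (by positivity) (by positivity), Real.log_pow, ← hLB] at h5
        push_cast at h5
        refine h5.trans ?_
        have h7 : (((F ω).reads i : ℝ)) ^ 2 ≤ (40 * θ) ^ 2 :=
          pow_le_pow_left₀ (by positivity) hr 2
        have h8 : (((F ω).reads i : ℝ)) ^ 2 * (3 * (L * Real.log 2)) ≤
            (40 * θ) ^ 2 * (3 * (L * Real.log 2)) :=
          mul_le_mul_of_nonneg_right h7 (by positivity)
        linarith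
    have h4 := h2.trans (sum_le_sum fun ω (_ : ω ∈ (univ : Finset Ω)) => h3 ω)
    rw [← sum_mul, hμ.sum_one, one_mul] at h4
    have h5 := le_of_mul_le_mul_right h4 h6
    have h7 : (415 / 1000 - (1 / 3 + 1 / 40) - δ) * (Fintype.card T : ℝ) =
        (17 / 300 - δ) * Fintype.card T := by ring
    rw [h7] at h5
    linarith
  have h2 := sum_le_sum h1
  rw [sum_const, nsmul_eq_mul, sum_comm] at h2
  refine h2.trans ?_
  have e1 : (w : ℝ) * s = ∑ ω, μ ω * (w * s) := by
    rw [← sum_mul, hμ.sum_one, one_mul]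
  rw [e1]
  apply sum_le_sum
  intro ω _
  rw [← mul_sum]
  apply mul_le_mul_of_nonneg_left _ (hμ.nonneg ω)
  have h8 : ∑ i ∈ I, (F ω).reads i ≤ w * s :=
    (Fml.sum_reads_le I hw (F ω)).trans (Nat.mul_le_mul_left _ (hs ω))
  exact_mod_cast h8

end

theorem lower (h : S_SUB) : S_BOUND := by
  intro ι D _ w q T _ Ω _ μ hμ F P f hF s hs hq hw K M hM δ hδ I hI t ht100 htT
  obtain ⟨L, hL⟩ : ∃ L : ℝ, L = 1 + 5 * Real.logb 2 M + (w - 1) * Real.logb 2 q := ⟨_, rfl⟩
  have hL1 : 1 ≤ L := by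
    have hlq : 0 ≤ Real.logb 2 (q : ℝ) := Real.logb_nonneg (by norm_num) (by exact_mod_cast hq)
    have hlM : 0 ≤ Real.logb 2 (M : ℝ) :=
      Real.logb_nonneg (by norm_num) (by exact_mod_cast (by omega : 1 ≤ M))
    have hw1 : (0 : ℝ) ≤ (w : ℝ) - 1 := by
      have : (1 : ℝ) ≤ w := by exact_mod_cast hw
      linarith
    have h1 : 0 ≤ ((w : ℝ) - 1) * Real.logb 2 (q : ℝ) := mul_nonneg hw1 hlq
    rw [hL]
    linarith
  obtain ⟨u, hu⟩ : ∃ u : ℝ, u = Real.sqrt t := ⟨_, rfl⟩
  have hu2 : u ^ 2 = t := by rw [hu]; exact Real.sq_sqrt (by linarith)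
  have hu0 : 0 < u := by rw [hu]; exact Real.sqrt_pos.2 (by linarith)
  obtain ⟨l, hl⟩ : ∃ l : ℝ, l = Real.sqrt L := ⟨_, rfl⟩
  have hl2 : l ^ 2 = L := by rw [hl]; exact Real.sq_sqrt (by linarith)
  have hl0 : 0 < l := by rw [hl]; exact Real.sqrt_pos.2 (by linarith)
  have hθ0 : 0 < u / (600 * l) := by positivity
  have h1 := fml_lower h μ hμ F P f hF s hs hq hw K M hM δ I hI (u / (600 * l)) hθ0 (by
    rw [← hL]
    have h2 : 3 * (40 * (u / (600 * l))) ^ 2 * L = t / 75 := by
      rw [← hl2, ← hu2]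
      field_simp
      ring
    rw [h2]
    have h4 : (17 / 300 - 1 / 32) * t ≤ (17 / 300 - δ) * t :=
      mul_le_mul_of_nonneg_right (by linarith) (by linarith)
    have h5 : (17 / 300 - δ) * t ≤ (17 / 300 - δ) * Fintype.card T :=
      mul_le_mul_of_nonneg_left htT (by linarith)
    linarith)
  rw [← hL, ← hu, ← hl]
  have h2 : (I.card : ℝ) * u = 600 * l * (I.card * (u / (600 * l))) := by
    field_simp
  rw [h2]
  calc 600 * l * ((I.card : ℝ) * (u / (600 * l))) ≤ 600 * l * (w * s) :=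
        mul_le_mul_of_nonneg_left h1 (by positivity)
    _ = 600 * w * l * s := by ring

end Pool.Agent.Y427.DG
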